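import Pool.Agent.Helper44.GH.Stmts

/-!
# GH, module CNT (helper5): continuity
-/

open Finset MeasureTheory Filter Topology Matrix
open scoped ENNReal ContDiff

namespace Pool.Agent.Helper44.GH

open Pool.Agent.Helper44.GF Pool.Agent.Helper44.GN

/-- entries continuous on the orthant -/
def cnt_C {n a b : ℕ} (A : (Fin n → ℝ) → Matrix (Fin a) (Fin b) ℝ) : Prop :=
  ∀ i j, ContinuousOn (fun y => A y i j) (Og n)

theorem cnt_TT {n m : ℕ} (V W : Matrix (Fin n) (Fin m) ℝ) : cnt_C (fun y => TT V W y) := by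
  intro i j
  have h : (fun y : Fin n → ℝ => TT V W y i j) = fun y => ∑ x, V x i * y x * W x j := by
    funext y
    unfold TT
    rw [Matrix.mul_apply]
    refine Finset.sum_congr rfl fun x _ => ?_
    rw [Matrix.mul_diagonal, Matrix.transpose_apply]
  rw [h]
  apply Continuous.continuousOn
  apply continuous_finsetSum
  intro x _
  exact (continuous_const.mul (continuous_apply x)).mul continuous_const

theorem cnt_mul {n a b c : ℕ} {A : (Fin n → ℝ) → Matrix (Fin a) (Fin b) ℝ}
    {B : (Fin n → ℝ) → Matrix (Fin b) (Fin c) ℝ} (hA : cnt_C A) (hB : cnt_C B) :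
    cnt_C (fun y => A y * B y) := by
  intro i j
  simp only [Matrix.mul_apply]
  apply continuousOn_finsetSum
  intro x _
  exact (hA i x).mul (hB x j)

theorem cnt_sub {n a b : ℕ} {A B : (Fin n → ℝ) → Matrix (Fin a) (Fin b) ℝ}
    (hA : cnt_C A) (hB : cnt_C B) : cnt_C (fun y => A y - B y) := by
  intro i j
  simp only [Matrix.sub_apply]
  exact (hA i j).sub (hB i j)

theorem cnt_tr {n a b : ℕ} {A : (Fin n → ℝ) → Matrix (Fin a) (Fin b) ℝ} (hA : cnt_C A) :
    cnt_C (fun y => (A y)ᵀ) := by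
  intro i j
  simp only [Matrix.transpose_apply]
  exact hA j i

theorem cnt_trace {n a : ℕ} {A : (Fin n → ℝ) → Matrix (Fin a) (Fin a) ℝ} (hA : cnt_C A) :
    ContinuousOn (fun y => Matrix.trace (A y)) (Og n) := by
  simp only [Matrix.trace, Matrix.diag]
  apply continuousOn_finsetSum
  intro i _
  exact hA i i

theorem cnt_det {n a : ℕ} {A : (Fin n → ℝ) → Matrix (Fin a) (Fin a) ℝ} (hA : cnt_C A) :
    ContinuousOn (fun y => (A y).det) (Og n) := by
  simp only [Matrix.det_apply]
  apply continuousOn_finsetSum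
  intro σ _
  apply ContinuousOn.const_smul
  apply continuousOn_finsetProd
  intro i _
  exact hA _ _

theorem cnt_inv {n a : ℕ} {A : (Fin n → ℝ) → Matrix (Fin a) (Fin a) ℝ} (hA : cnt_C A)
    (h0 : ∀ y ∈ Og n, (A y).det ≠ 0) : cnt_C (fun y => (A y)⁻¹) := by
  intro i j
  have h : (fun y => (A y)⁻¹ i j)
      = fun y => (A y).det⁻¹ * ((A y).updateRow j (Pi.single i 1)).det := by
    funext y
    rw [Matrix.inv_def, Matrix.smul_apply, Matrix.adjugate_apply, smul_eq_mul,
      Ring.inverse_eq_inv']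
  rw [h]
  refine ((cnt_det hA).inv₀ h0).mul (cnt_det ?_)
  intro k l
  simp only [Matrix.updateRow_apply]
  by_cases hk : k = j
  · simp only [hk, if_true]
    exact continuousOn_const
  · simp only [hk, if_false]
    exact hA k l

theorem cnt_pos {n m : ℕ} (V : Matrix (Fin n) (Fin m) ℝ) (hV : Function.Injective V.mulVec)
    (R : Fin n → ℝ) (hR : R ∈ Og n) : 0 < qf V R := by
  have h1 : (Matrix.diagonal R).PosDef := Matrix.PosDef.diagonal fun x => hR x
  have h2 := h1.conjTranspose_mul_mul_same hV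
  rw [Matrix.conjTranspose_eq_transpose_of_trivial] at h2
  exact h2.det_pos

theorem st_CNT : ST_CNT := by
  intro n m V Z hV
  have h0 : ∀ y ∈ Og n, (TT V V y).det ≠ 0 := fun y hy => (cnt_pos V hV y hy).ne'
  have hi : cnt_C (fun y => (TT V V y)⁻¹) := cnt_inv (cnt_TT V V) h0
  have hB : cnt_C (fun y => BB V Z y) := cnt_mul hi (cnt_TT V Z)
  refine ⟨fun y hy => cnt_pos V hV y hy, cnt_det (cnt_TT V V), hi, hB, ?_⟩
  exact cnt_trace (cnt_mul hi (cnt_sub (cnt_TT Z Z) (cnt_mul (cnt_mul (cnt_tr hB) (cnt_TT V V)) hB)))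

end Pool.Agent.Helper44.GH
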