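import Pool.Agent.Helper44.GH.Stmts

/-!
# GH, module CVB (helper5): the covering property
-/

open Finset MeasureTheory Filter Topology Matrix
open scoped ENNReal ContDiff

namespace Pool.Agent.Helper44.GH

open Pool.Agent.Helper44.GF Pool.Agent.Helper44.GN

theorem st_CVB (hE : Pool.Agent.Helper44.GN.ST_EXT) (hM : Pool.Agent.Helper44.GN.ST_MAPF)
    (hC : Pool.Agent.Helper44.GF.ST_COVER) : ST_CVB := by
  intro m n K F θ hθ hcyc B i hB1
  have hB : LinearIndependent ℝ (fun k => B k) := by
    rw [Fintype.linearIndependent_iff]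
    intro c hc
    have h1 : c ᵥ* B = 0 := by
      rw [Matrix.vecMul_eq_sum]
      exact hc
    have h2 : c ᵥ* (B * (F i).mat) = 0 := by
      rw [← Matrix.vecMul_vecMul, h1, Matrix.zero_vecMul]
    rw [hB1, Matrix.vecMul_one] at h2
    intro k
    rw [h2]
    rfl
  obtain ⟨A, f, hf, hA, hAB⟩ := hE (m + 1) n B hB
  obtain ⟨F', hcyc', hdom, hmat⟩ := hM m n K A hA F θ hcyc
  have hsub : ∀ j, (F' j).mat.submatrix f id = B * (F j).mat := by
    intro j
    rw [hmat j]
    ext a b
    simp only [Matrix.submatrix_apply, id]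
    rw [Matrix.mul_apply, Matrix.mul_apply]
    refine Finset.sum_congr rfl fun k _ => ?_
    rw [hAB a k]
  have hdet : ((F' i).mat.submatrix f id).det ≠ 0 := by
    rw [hsub i, hB1, Matrix.det_one]
    exact one_ne_zero
  have h1 := hC m n K F' θ hθ hcyc' f i hdet
  rw [hdom i] at h1
  refine h1.trans (le_of_eq ?_)
  refine Finset.sum_congr rfl fun j _ => ?_
  rw [hsub i, hsub j, hdom j, hB1, Matrix.det_one, div_one]

end Pool.Agent.Helper44.GH
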