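import Pool.Agent.Helper44.GH.Stmts

/-!
# GH, module DMS (helper5): derivatives of `MS`
-/

open Finset MeasureTheory Filter Topology Matrix
open scoped ENNReal ContDiff

namespace Pool.Agent.Helper44.GH

open Pool.Agent.Helper44.GF Pool.Agent.Helper44.GN

theorem dms_tau {n : ℕ} {Y : Type} [Fintype Y] [DecidableEq Y] {s ζ δ : ℝ} {r z : Y → ℝ}
    (h : MD s ζ δ r z) (η : Finset (Fin n × Y)) : tau δ r η ∈ Og n := by
  intro i
  unfold tau
  have h1 : 0 ≤ ∑ y, (if (i, y) ∈ η then r y else 0) := by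
    refine Finset.sum_nonneg fun y _ => ?_
    split_ifs
    · exact (h.r0 y).le
    · exact le_rfl
  have h2 := h.d0
  linarith

/-- the derivative of one weight -/
theorem dms_W1 {n m : ℕ} {Y : Type} [Fintype Y] [DecidableEq Y] {s ζ δ : ℝ} {r z : Y → ℝ}
    (hQ : ST_DQ) (hC : ST_CNT) (V Z : Matrix (Fin n) (Fin m) ℝ) (h : MD s ζ δ r z)
    (hV : Function.Injective V.mulVec) (η : Finset (Fin n × Y)) :
    HasDerivAt (fun t : ℝ => W1 (V + t • Z) δ r z η)
      (-(W1 V δ r z η * Matrix.trace (BB V Z (tau δ r η)))) 0 := by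
  have ht := dms_tau (n := n) h η
  have h1 := (hQ n m V Z hV _ ht).1
  have h2 := (hC n m V Z hV).1 _ ht
  have h3 : qf (V + (0 : ℝ) • Z) (tau δ r η) = qf V (tau δ r η) := by
    rw [zero_smul, add_zero]
  have h4 := (h1.rpow_const (p := (-(1 / 2) : ℝ)) (Or.inl (by rw [h3]; exact h2.ne'))).const_mul
    (zw z η)
  refine h4.congr_deriv ?_
  rw [h3]
  unfold W1
  have h5 : qf V (tau δ r η) ^ ((-(1 / 2) : ℝ) - 1)
      = qf V (tau δ r η) ^ (-(1 / 2) : ℝ) / qf V (tau δ r η) := by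
    rw [Real.rpow_sub h2, Real.rpow_one]
  rw [h5]
  field_simp
  try ring

theorem st_DMS (hQ : ST_DQ) (hC : ST_CNT) : ST_DMS := by
  intro n m Y _ _ s ζ δ r z V Z h hV
  constructor
  · unfold MS M1
    have h1 := HasDerivAt.fun_sum (u := (Finset.univ : Finset (Finset (Fin n × Y))))
      fun η _ => dms_W1 hQ hC V Z h hV η
    refine h1.congr_deriv ?_
    rw [Finset.sum_neg_distrib]
  · unfold M1 M2
    have h1 := (HasDerivAt.fun_sum (u := (Finset.univ : Finset (Finset (Fin n × Y))))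
      fun η _ => (dms_W1 hQ hC V Z h hV η).mul
        ((hQ n m V Z hV _ (dms_tau (n := n) h η)).2)).neg
    refine h1.congr_deriv ?_
    rw [← Finset.sum_neg_distrib]
    refine Finset.sum_congr rfl fun η _ => ?_
    rw [zero_smul, add_zero]
    ring

end Pool.Agent.Helper44.GH
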